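import Mathlib

open Topology unitInterval

namespace Pool.Agent.Results.MP_d8e3a9_al.InfinitePresentation

/-! ### The Cayley 2-complex of a presentation -/

section General

variable {X : Type} (R : Set (List (X × Bool)))

/-- The group `⟨X ∣ R⟩`; the relators are words, `(x, true)` stands for `x` and `(x, false)` for the
inverse of `x`. -/
abbrev Gp : Type := PresentedGroup (FreeGroup.mk '' R)

/-- The element of `⟨X ∣ R⟩` given by a word. -/
def ev (w : List (X × Bool)) : Gp R := PresentedGroup.mk _ (FreeGroup.mk w)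

/-- The element of `⟨X ∣ R⟩` given by a generator. -/
def gen (x : X) : Gp R := PresentedGroup.of x

/-- The closed unit disc. -/
abbrev Disc : Type := Metric.closedBall (0 : ℂ) 1

/-- The point of the boundary circle at the angle `2 π θ`. -/
noncomputable def bd (θ : ℝ) : Disc :=
  ⟨Complex.exp (2 * Real.pi * θ * Complex.I), by
    have h := Complex.norm_exp_ofReal_mul_I (2 * Real.pi * θ)
    push_cast at h
    rw [mem_closedBall_zero_iff, h]⟩

/-- The disjoint union of the closed cells of the Cayley complex: a vertex for every `g`, an edge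
for every `g` and every generator, a disc for every `g` and every relator. -/
abbrev Pre : Type := (Σ _ : Gp R, Unit) ⊕ (Σ _ : Gp R × X, I) ⊕ (Σ _ : Gp R × R, Disc)

variable {R}

/-- the vertex `g` -/
def vertex (g : Gp R) : Pre R := .inl ⟨g, ()⟩

/-- the point `t` of the closed edge from `g` to `g x` -/
def edge (g : Gp R) (x : X) (t : I) : Pre R := .inr (.inl ⟨(g, x), t⟩)

/-- the point `z` of the closed disc based at `g` with boundary word `w` -/
def disc (g : Gp R) (w : R) (z : Disc) : Pre R := .inr (.inr ⟨(g, w), z⟩)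

/-- the point with parameter `s` on the edge path of length one which starts at `h` and reads the
letter `l` -/
def edgePt (h : Gp R) (l : X × Bool) (s : I) : Pre R :=
  if l.2 then edge h l.1 s else edge (h * (gen R l.1)⁻¹) l.1 (σ s)

/-- The gluing of the closed cells. -/
inductive Glue : Pre R → Pre R → Prop
  | source (g : Gp R) (x : X) : Glue (edge g x 0) (vertex g)
  | target (g : Gp R) (x : X) : Glue (edge g x 1) (vertex (g * gen R x))
  | boundary (g : Gp R) (w : R) (j : Fin w.1.length) (s : I) :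
      Glue (disc g w (bd (((j : ℕ) + (s : ℝ)) / w.1.length)))
        (edgePt (g * ev R (w.1.take j)) (w.1.get j) s)
  | empty (g : Gp R) (w : R) (h : w.1 = []) (θ : ℝ) : Glue (disc g w (bd θ)) (vertex g)

variable (R)

/-- The Cayley complex of the presentation `⟨X ∣ R⟩`, with the quotient topology. -/
abbrev Cay : Type := Quot (Glue (R := R))

/-- A set of cells. -/
structure Cells where
  /-- the vertices -/
  V : Set (Gp R)
  /-- the edges -/
  E : Set (Gp R × X)
  /-- the 2-cells -/
  D : Set (Gp R × R)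

variable {R}

/-- The set of cells is finite. -/
def Cells.IsFinite (C : Cells R) : Prop := C.V.Finite ∧ C.E.Finite ∧ C.D.Finite

/-- The union of the closed cells in `C`. -/
def Cells.carrier (C : Cells R) : Set (Cay R) :=
  {p | (∃ g ∈ C.V, p = Quot.mk _ (vertex g)) ∨
    (∃ e ∈ C.E, ∃ t, p = Quot.mk _ (edge e.1 e.2 t)) ∨
    (∃ d ∈ C.D, ∃ z, p = Quot.mk _ (disc d.1 d.2 z))}

/-- The edge traversed by a letter `l` starting at `h`. -/
def letterEdge (h : Gp R) (l : X × Bool) : Gp R × X :=
  if l.2 then (h, l.1) else (h * (gen R l.1)⁻¹, l.1)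

/-- A set of cells is a subcomplex if it holds the endpoints of its edges, and the base points
and the boundary edges of its 2-cells. -/
def Cells.IsSubcomplex (C : Cells R) : Prop :=
  (∀ e ∈ C.E, e.1 ∈ C.V ∧ e.1 * gen R e.2 ∈ C.V) ∧
  (∀ d ∈ C.D, d.1 ∈ C.V ∧ ∀ j : Fin d.2.1.length,
    letterEdge (d.1 * ev R (d.2.1.take j)) (d.2.1.get j) ∈ C.E)

variable (R)

/-- The trivial subgroup is tame with respect to the presentation `⟨X ∣ R⟩`: for every finite
subcomplex `C` of the Cayley complex and every connected component of the complement of `C` the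
fundamental group of that component is finitely generated. -/
def TrivialSubgroupTame : Prop :=
  ∀ C : Cells R, C.IsSubcomplex → C.IsFinite → ∀ (p : Cay R) (hp : p ∈ C.carrierᶜ),
    Group.FG (FundamentalGroup (connectedComponentIn C.carrierᶜ p)
      ⟨p, mem_connectedComponentIn hp⟩)

end General

/-- The relators `x_k⁻¹ x_n x_k x_{n+1}⁻¹`, `k < n`, of the infinite presentation of Thompson's
group `F`. -/
def relators : Set (List (ℕ × Bool)) :=
  {w | ∃ k n : ℕ, k < n ∧ w = [(k, false), (n, true), (k, true), (n + 1, false)]}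


/-! ### Vertices in the quotient -/

section Proofs

variable {X : Type} {R : Set (List (X × Bool))}

theorem bd_eq_bd {a b : ℝ} : bd a = bd b ↔ ∃ n : ℤ, a - b = n := by
  unfold bd
  rw [Subtype.mk.injEq, Complex.exp_eq_exp_iff_exists_int]
  constructor
  · rintro ⟨n, hn⟩
    refine ⟨n, ?_⟩
    have h2 : (2 * Real.pi * Complex.I : ℂ) ≠ 0 := Complex.two_pi_I_ne_zero
    have h3 : ((a - b : ℝ) : ℂ) = ((n : ℝ) : ℂ) := by
      apply mul_right_cancel₀ h2
      push_cast
      linear_combination hn
    exact_mod_cast h3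
  · rintro ⟨n, hn⟩
    refine ⟨n, ?_⟩
    have h3 : ((a - b : ℝ) : ℂ) = ((n : ℝ) : ℂ) := by rw [hn]
    push_cast at h3
    linear_combination (2 * Real.pi * Complex.I : ℂ) * h3

theorem norm_bd (a : ℝ) : ‖(bd a : ℂ)‖ = 1 := by
  have h := Complex.norm_exp_ofReal_mul_I (2 * Real.pi * a)
  push_cast at h
  exact h

/-- value of a letter -/
def val (l : X × Bool) : Gp R := if l.2 then gen R l.1 else (gen R l.1)⁻¹

theorem ev_append (u v : List (X × Bool)) : ev R (u ++ v) = ev R u * ev R v := by
  unfold ev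
  rw [← map_mul]
  congr 1

theorem ev_singleton (l : X × Bool) : ev R [l] = val l := by
  obtain ⟨x, b⟩ := l
  cases b
  · simp only [val, ev, gen, Bool.false_eq_true, if_false]
    rfl
  · simp only [val, ev, gen, if_true]
    rfl

theorem ev_take_succ (w : List (X × Bool)) (j : Fin w.length) :
    ev R (w.take (j + 1)) = ev R (w.take j) * val (w.get j) := by
  rw [← ev_singleton, ← ev_append]
  congr 1
  rw [List.take_add_one]
  simp

theorem ev_rel (w : R) : ev R w.1 = 1 :=
  PresentedGroup.one_of_mem ⟨w.1, w.2, rfl⟩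

/-- the points which are glued to the vertex `v` -/
def atV (v : Gp R) : Pre R → Prop
  | .inl a => a.1 = v
  | .inr (.inl e) => (e.2 = 0 ∧ e.1.1 = v) ∨ (e.2 = 1 ∧ e.1.1 * gen R e.1.2 = v)
  | .inr (.inr d) => (∃ j : ℕ, j < d.1.2.1.length ∧ d.2 = bd ((j : ℝ) / d.1.2.1.length) ∧
      d.1.1 * ev R (d.1.2.1.take j) = v) ∨ (d.1.2.1 = [] ∧ ‖(d.2 : ℂ)‖ = 1 ∧ d.1.1 = v)

theorem symm_eq_zero {s : I} : σ s = 0 ↔ s = 1 := by
  rw [← unitInterval.symm_one, unitInterval.symm_inj]

theorem symm_eq_one {s : I} : σ s = 1 ↔ s = 0 := by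
  rw [← unitInterval.symm_zero, unitInterval.symm_inj]

theorem atV_edgePt (v h : Gp R) (l : X × Bool) (s : I) :
    atV v (edgePt h l s) ↔ (s = 0 ∧ h = v) ∨ (s = 1 ∧ h * val l = v) := by
  obtain ⟨x, b⟩ := l
  cases b
  · simp only [edgePt, edge, atV, val, Bool.false_eq_true, if_false, symm_eq_zero, symm_eq_one,
      inv_mul_cancel_right]
    tauto
  · simp only [edgePt, edge, atV, val, if_true]

theorem atV_glue (v : Gp R) {a b : Pre R} (h : Glue a b) : atV v a ↔ atV v b := by
  cases h with
  | source g x => simp [edge, vertex, atV]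
  | target g x => simp [edge, vertex, atV]
  | empty g w hw θ => simp [disc, vertex, atV, hw, norm_bd]
  | boundary g w j s =>
    rw [atV_edgePt]
    have hl : 0 < w.1.length := lt_of_le_of_lt (Nat.zero_le _) j.2
    have hl' : (0 : ℝ) < w.1.length := by exact_mod_cast hl
    have hne : w.1 ≠ [] := by
      intro h0
      rw [h0] at hl
      simp at hl
    have hj1 : (g * ev R (w.1.take j)) * val (w.1.get j) = g * ev R (w.1.take (j + 1)) := by
      rw [ev_take_succ, mul_assoc]
    rw [hj1]
    simp only [disc, atV]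
    have hs0 := s.2.1
    have hs1 := s.2.2
    constructor
    · rintro (⟨i, hi, h1, h2⟩ | ⟨h0, -⟩)
      · rw [bd_eq_bd] at h1
        obtain ⟨n, hn⟩ := h1
        have hn' : ((j : ℕ) : ℝ) + s - i = n * w.1.length := by
          field_simp at hn
          linarith
        have hjl : ((j : ℕ) : ℝ) + 1 ≤ w.1.length := by exact_mod_cast j.2
        have hil : (i : ℝ) + 1 ≤ w.1.length := by exact_mod_cast hi
        have hj0 : (0 : ℝ) ≤ (j : ℕ) := Nat.cast_nonneg _
        have hi0 : (0 : ℝ) ≤ i := Nat.cast_nonneg _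
        have hnlt : (-1 : ℝ) < n := by
          by_contra hcon
          push Not at hcon
          nlinarith
        have hnle : (n : ℝ) < 2 := by
          by_contra hcon
          push Not at hcon
          nlinarith
        have hn0 : -1 < n := by exact_mod_cast hnlt
        have hn2 : n < 2 := by exact_mod_cast hnle
        obtain rfl | rfl : n = 0 ∨ n = 1 := by omega
        · -- j + s = i
          have h3 : (s : ℝ) = i - (j : ℕ) := by push_cast at hn'; linarith
          have h4 : ((i : ℤ) - (j : ℕ) : ℤ) = 0 ∨ ((i : ℤ) - (j : ℕ) : ℤ) = 1 := by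
            have h5 : (0 : ℝ) ≤ ((i : ℤ) - (j : ℕ) : ℤ) := by push_cast; linarith
            have h6 : (((i : ℤ) - (j : ℕ) : ℤ) : ℝ) ≤ 1 := by push_cast; linarith
            have h7 : 0 ≤ ((i : ℤ) - (j : ℕ) : ℤ) := by exact_mod_cast h5
            have h8 : ((i : ℤ) - (j : ℕ) : ℤ) ≤ 1 := by exact_mod_cast h6
            omega
          rcases h4 with h4 | h4
          · left
            have h9 : i = (j : ℕ) := by omega
            subst h9
            refine ⟨Subtype.ext ?_, h2⟩
            simpa using h3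
          · right
            have h9 : i = (j : ℕ) + 1 := by omega
            subst h9
            refine ⟨Subtype.ext ?_, h2⟩
            push_cast at h3
            simpa using h3
        · -- j + s - i = l
          right
          push_cast at hn'
          have h5 : (s : ℝ) = 1 := by linarith
          have h6 : i = 0 := by
            have : (i : ℝ) ≤ 0 := by linarith
            exact_mod_cast le_antisymm this hi0
          have h7 : (j : ℕ) + 1 = w.1.length := by
            have : ((j : ℕ) : ℝ) + 1 = w.1.length := by rw [h6] at hn'; push_cast at hn'; linarith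
            exact_mod_cast this
          refine ⟨Subtype.ext h5, ?_⟩
          rw [h7, List.take_length, ev_rel, mul_one]
          rw [h6, List.take_zero] at h2
          have h8 : ev R ([] : List (X × Bool)) = 1 := by
            unfold ev
            exact map_one _
          rw [h8, mul_one] at h2
          exact h2
      · exact absurd h0 hne
    · rintro (⟨h1, h2⟩ | ⟨h1, h2⟩)
      · left
        refine ⟨j, j.2, ?_, h2⟩
        rw [h1]
        simp
      · left
        by_cases hjl : (j : ℕ) + 1 < w.1.length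
        · refine ⟨j + 1, hjl, ?_, h2⟩
          rw [h1]
          simp
        · have h7 : (j : ℕ) + 1 = w.1.length := by omega
          refine ⟨0, hl, ?_, ?_⟩
          · rw [bd_eq_bd]
            refine ⟨1, ?_⟩
            rw [h1]
            have : ((j : ℕ) : ℝ) + 1 = w.1.length := by exact_mod_cast h7
            simp only [Set.Icc.coe_one, this]
            field_simp
            simp
          · rw [h7, List.take_length, ev_rel, mul_one] at h2
            rw [List.take_zero]
            have h8 : ev R ([] : List (X × Bool)) = 1 := by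
              unfold ev
              exact map_one _
            rw [h8, mul_one]
            exact h2

/-- the point of the quotient given by a point of a closed cell -/
def q (a : Pre R) : Cay R := Quot.mk _ a

theorem exists_bd (z : Disc) (hz : ‖(z : ℂ)‖ = 1) : ∃ θ : ℝ, z = bd θ := by
  refine ⟨(z : ℂ).arg / (2 * Real.pi), Subtype.ext ?_⟩
  have h := Complex.norm_mul_exp_arg_mul_I (z : ℂ)
  rw [hz] at h
  have hpi : (Real.pi : ℂ) ≠ 0 := by exact_mod_cast Real.pi_ne_zero
  rw [Complex.ofReal_one, one_mul] at h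
  change (z : ℂ) = Complex.exp _
  refine h.symm.trans ?_
  congr 1
  push_cast
  field_simp

theorem q_eq_vertex_iff (v : Gp R) (a : Pre R) : q a = q (vertex v) ↔ atV v a := by
  constructor
  · intro h
    have h1 : Quot.lift (atV v) (fun a b hab => propext (atV_glue v hab)) (q a) =
        Quot.lift (atV v) (fun a b hab => propext (atV_glue v hab)) (q (vertex v)) := by rw [h]
    have h2 : atV v a = atV v (vertex v) := h1
    rw [h2]
    rfl
  · intro h
    rcases a with ⟨g, u⟩ | ⟨⟨g, x⟩, t⟩ | ⟨⟨g, w⟩, z⟩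
    · have : g = v := h
      subst this
      rfl
    · rcases h with ⟨h1, h2⟩ | ⟨h1, h2⟩
      · simp only at h1 h2
        subst h1 h2
        exact Quot.sound (Glue.source g x)
      · simp only at h1 h2
        subst h1 h2
        exact Quot.sound (Glue.target g x)
    · rcases h with ⟨j, hj, h1, h2⟩ | ⟨h0, h1, h2⟩
      · simp only at hj h1 h2
        subst h1 h2
        have h3 := Glue.boundary g w ⟨j, hj⟩ 0
        have h4 : q (disc g w (bd ((j : ℝ) / w.1.length))) =
            q (edgePt (g * ev R (w.1.take j)) (w.1.get ⟨j, hj⟩) 0) := by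
          have h5 := Quot.sound h3
          simp only [Set.Icc.coe_zero, add_zero] at h5
          exact h5
        have h6 : q (edgePt (g * ev R (w.1.take j)) (w.1.get ⟨j, hj⟩) 0) =
            q (vertex (g * ev R (w.1.take j))) := by
          unfold edgePt
          split_ifs with hb
          · exact Quot.sound (Glue.source _ _)
          · rw [unitInterval.symm_zero]
            have h7 := Quot.sound (Glue.target (g * ev R (w.1.take j) *
              (gen R (w.1.get ⟨j, hj⟩).1)⁻¹) (w.1.get ⟨j, hj⟩).1)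
            rw [inv_mul_cancel_right] at h7
            exact h7
        exact h4.trans h6
      · simp only at h0 h1 h2
        subst h2
        obtain ⟨θ, rfl⟩ := exists_bd z h1
        exact Quot.sound (Glue.empty g w h0 θ)


theorem isClosed_atV (v : Gp R) : IsClosed {a : Pre R | atV v a} := by
  rw [isClosed_sum_iff]
  refine ⟨isClosed_sigma_iff.2 fun g => ?_, ?_⟩
  · exact isClosed_discrete _
  · rw [isClosed_sum_iff]
    refine ⟨isClosed_sigma_iff.2 fun e => ?_, isClosed_sigma_iff.2 fun d => ?_⟩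
    · refine ((Set.toFinite ({0, 1} : Set I)).subset ?_).isClosed
      rintro t (⟨h1, -⟩ | ⟨h1, -⟩)
      · left; exact h1
      · right; exact h1
    · change IsClosed ({z : Disc | ∃ j : ℕ, j < d.2.1.length ∧ z = bd ((j : ℝ) / d.2.1.length) ∧
          d.1 * ev R (d.2.1.take j) = v} ∪ {z : Disc | d.2.1 = [] ∧ ‖(z : ℂ)‖ = 1 ∧ d.1 = v})
      refine IsClosed.union (Set.Finite.isClosed ?_) ?_
      · refine ((Finset.range d.2.1.length).finite_toSet.image
          (fun j : ℕ => bd ((j : ℝ) / d.2.1.length))).subset ?_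
        rintro z ⟨j, hj, h1, -⟩
        exact ⟨j, by simpa using hj, h1.symm⟩
      · by_cases h : d.2.1 = [] ∧ d.1 = v
        · have : {z : Disc | d.2.1 = [] ∧ ‖(z : ℂ)‖ = 1 ∧ d.1 = v} = {z : Disc | ‖(z : ℂ)‖ = 1} := by
            ext z
            simp [h.1, h.2]
          rw [this]
          exact isClosed_eq (continuous_norm.comp continuous_subtype_val) continuous_const
        · have : {z : Disc | d.2.1 = [] ∧ ‖(z : ℂ)‖ = 1 ∧ d.1 = v} = ∅ := by
            ext z
            simp only [Set.mem_ofPred_eq, Set.mem_empty_iff_false, iff_false]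
            tauto
          rw [this]
          exact isClosed_empty

theorem isClosed_vertex (v : Gp R) : IsClosed {p : Cay R | p = q (vertex v)} := by
  have h : IsQuotientMap (q (R := R)) := isQuotientMap_quot_mk
  rw [← h.isClosed_preimage]
  have : q ⁻¹' {p : Cay R | p = q (vertex v)} = {a : Pre R | atV v a} := by
    ext a
    exact q_eq_vertex_iff v a
  rw [this]
  exact isClosed_atV v

end Proofs

/-! ### The infinite presentation -/

section Infinite

/-- the relator `x_0⁻¹ x_{n+1} x_0 x_{n+2}⁻¹` -/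
def pg (n : ℕ) : relators :=
  ⟨[(0, false), (n + 1, true), (0, true), (n + 2, false)], 0, n + 1, Nat.succ_pos n, rfl⟩

/-- the generator `x_n` -/
def x (n : ℕ) : Gp relators := gen relators n

theorem pg_inj {m n : ℕ} (h : pg m = pg n) : m = n := by
  have h1 := congrArg Subtype.val h
  simp only [pg, List.cons.injEq, Prod.mk.injEq] at h1
  omega

/-- degree in the generators other than `x_0` -/
def degFun : ℕ → Multiplicative ℤ
  | 0 => 1
  | _ + 1 => Multiplicative.ofAdd 1

theorem degFun_rel : ∀ r ∈ FreeGroup.mk '' relators, FreeGroup.lift degFun r = 1 := by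
  rintro _ ⟨w, ⟨k, n, hkn, rfl⟩, rfl⟩
  obtain ⟨m, rfl⟩ : ∃ m, n = m + 1 := ⟨n - 1, by omega⟩
  simp [FreeGroup.lift_mk, degFun]

/-- degree in the generators other than `x_0` -/
def deg : Gp relators →* Multiplicative ℤ := PresentedGroup.toGroup degFun_rel

theorem deg_x (n : ℕ) : deg (x n) = degFun n := PresentedGroup.toGroup.of degFun_rel

theorem deg_x_succ (n : ℕ) : deg (x (n + 1)) = Multiplicative.ofAdd 1 := deg_x _

theorem deg_x_zero : deg (x 0) = 1 := deg_x _

theorem ofAdd_one_ne : (Multiplicative.ofAdd (1 : ℤ)) ≠ 1 := by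
  intro h
  have := congrArg Multiplicative.toAdd h
  simp at this

theorem x_rel {k n : ℕ} (h : k < n) : x n * x k = x k * x (n + 1) := by
  have h1 := ev_rel (R := relators) ⟨_, k, n, h, rfl⟩
  have h2 : ev relators [(k, false), (n, true), (k, true), (n + 1, false)] =
      (x k)⁻¹ * x n * x k * (x (n + 1))⁻¹ := by
    have e1 : ([(k, false), (n, true), (k, true), (n + 1, false)] : List (ℕ × Bool)) =
      [(k, false)] ++ [(n, true)] ++ [(k, true)] ++ [(n + 1, false)] := rfl
    rw [e1, ev_append, ev_append, ev_append]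
    simp only [ev_singleton, val, x, Bool.false_eq_true, if_false, if_true]
  rw [h2] at h1
  have h3 := mul_inv_eq_one.1 h1
  rw [← h3]
  group

/-- The two vertices `1` and `x_0`, and no other cell. -/
def twoVertices : Cells relators := ⟨{1, x 0}, ∅, ∅⟩

theorem twoVertices_isSubcomplex : twoVertices.IsSubcomplex :=
  ⟨fun _ he => he.elim, fun _ hd => hd.elim⟩

theorem twoVertices_isFinite : twoVertices.IsFinite :=
  ⟨Set.toFinite ({1, x 0} : Set (Gp relators)), Set.finite_empty, Set.finite_empty⟩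

theorem mem_compl_iff (a : Pre relators) :
    q a ∈ twoVertices.carrierᶜ ↔ ¬ atV 1 a ∧ ¬ atV (x 0) a := by
  rw [← q_eq_vertex_iff, ← q_eq_vertex_iff]
  simp only [Set.mem_compl_iff, Cells.carrier, twoVertices]
  constructor
  · intro h
    refine ⟨fun h1 => h (Or.inl ⟨1, by simp, h1⟩), fun h1 => h (Or.inl ⟨x 0, by simp, h1⟩)⟩
  · rintro ⟨h1, h2⟩ (⟨g, hg, h⟩ | ⟨e, he, -⟩ | ⟨d, hd, -⟩)
    · rcases hg with rfl | hg
      · exact h1 h
      · rw [Set.mem_singleton_iff] at hg
        subst hg
        exact h2 h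
    · exact he.elim
    · exact hd.elim

theorem isOpen_compl : IsOpen twoVertices.carrierᶜ := by
  have h : IsQuotientMap (q (R := relators)) := isQuotientMap_quot_mk
  rw [← h.isOpen_preimage]
  have : q ⁻¹' twoVertices.carrierᶜ = {a : Pre relators | atV 1 a}ᶜ ∩ {a | atV (x 0) a}ᶜ := by
    ext a
    exact mem_compl_iff a
  rw [this]
  exact (isClosed_atV 1).isOpen_compl.inter (isClosed_atV (x 0)).isOpen_compl

/-- vanishes on the first quarter of the circle only -/
noncomputable def fA (z : Disc) : ℝ := (1 - ‖(z : ℂ)‖ ^ 2) + max 0 (-(z : ℂ).re) + max 0 (-(z : ℂ).im)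

/-- vanishes on the other three quarters of the circle only -/
noncomputable def fB (z : Disc) : ℝ := (1 - ‖(z : ℂ)‖ ^ 2) + max 0 (min (z : ℂ).re (z : ℂ).im)

theorem continuous_fA : Continuous fA := by unfold fA; fun_prop

theorem continuous_fB : Continuous fB := by unfold fB; fun_prop

/-- zero on the first quarter of the circle, one on the other three quarters -/
noncomputable def tau (z : Disc) : ℝ := fA z / (fA z + fB z)

theorem norm_le (z : Disc) : ‖(z : ℂ)‖ ≤ 1 := mem_closedBall_zero_iff.1 z.2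

theorem one_sub_nonneg (z : Disc) : 0 ≤ 1 - ‖(z : ℂ)‖ ^ 2 := by
  have h1 := norm_le z
  have h2 := norm_nonneg (z : ℂ)
  nlinarith

theorem tau_of_norm (z : Disc) (h : ‖(z : ℂ)‖ = 1) : ((tau z : ℝ) : AddCircle (1 : ℝ)) = 0 := by
  have hA : fA z = max 0 (-(z : ℂ).re) + max 0 (-(z : ℂ).im) := by simp [fA, h]
  have hB : fB z = max 0 (min (z : ℂ).re (z : ℂ).im) := by simp [fB, h]
  by_cases h0 : 0 < min (z : ℂ).re (z : ℂ).im
  · have h1 := (lt_min_iff.1 h0)
    have : fA z = 0 := by
      rw [hA, max_eq_left (by linarith [h1.1]), max_eq_left (by linarith [h1.2]), add_zero]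
    simp [tau, this]
  · have : fB z = 0 := by rw [hB, max_eq_left (not_lt.1 h0)]
    rw [tau, this, add_zero]
    by_cases h2 : fA z = 0
    · simp [h2]
    · rw [div_self h2]
      exact AddCircle.coe_period 1

open Classical in
/-- the page function on the closed cells -/
noncomputable def fn (n : ℕ) : Pre relators → AddCircle (1 : ℝ)
  | .inl _ => 0
  | .inr (.inl _) => 0
  | .inr (.inr d) => if d.1 = (x 0, pg n) then ((tau d.2 : ℝ) : AddCircle (1 : ℝ)) else 0

theorem fn_edgePt (n : ℕ) (h : Gp relators) (l : ℕ × Bool) (s : I) : fn n (edgePt h l s) = 0 := by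
  unfold edgePt
  split_ifs <;> rfl

theorem fn_bd (n : ℕ) (g : Gp relators) (w : relators) (θ : ℝ) : fn n (disc g w (bd θ)) = 0 := by
  simp only [fn, disc]
  split_ifs
  · exact tau_of_norm _ (norm_bd θ)
  · rfl

theorem fn_glue (n : ℕ) {a b : Pre relators} (h : Glue a b) : fn n a = fn n b := by
  cases h with
  | source g x => rfl
  | target g x => rfl
  | boundary g w j s => rw [fn_bd, fn_edgePt]
  | empty g w hw θ => rw [fn_bd]; rfl

/-- the page function -/
noncomputable def phi (n : ℕ) : Cay relators → AddCircle (1 : ℝ) :=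
  Quot.lift (fn n) fun _ _ h => fn_glue n h

theorem phi_q (n : ℕ) (a : Pre relators) : phi n (q a) = fn n a := rfl

theorem fAB_ne (z : Disc) (h0 : z ≠ bd 0) (h1 : z ≠ bd (1 / 4)) : fA z + fB z ≠ 0 := by
  intro h
  have hn := one_sub_nonneg z
  have a1 : 0 ≤ max 0 (-(z : ℂ).re) := le_max_left _ _
  have a2 : 0 ≤ max 0 (-(z : ℂ).im) := le_max_left _ _
  have a3 : 0 ≤ max 0 (min (z : ℂ).re (z : ℂ).im) := le_max_left _ _
  unfold fA fB at h
  have e0 : ‖(z : ℂ)‖ ^ 2 = 1 := by linarith
  have e1 : -(z : ℂ).re ≤ 0 := (le_max_right _ _).trans (by linarith)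
  have e2 : -(z : ℂ).im ≤ 0 := (le_max_right _ _).trans (by linarith)
  have e3 : min (z : ℂ).re (z : ℂ).im ≤ 0 := (le_max_right _ _).trans (by linarith)
  have e4 : (z : ℂ).re ^ 2 + (z : ℂ).im ^ 2 = 1 := by
    have e5 := Complex.normSq_eq_norm_sq (z : ℂ)
    rw [Complex.normSq_apply] at e5
    linarith
  rcases min_le_iff.1 e3 with h3 | h3
  · -- re = 0, im = 1
    apply h1
    have hre : (z : ℂ).re = 0 := by linarith
    have him : (z : ℂ).im = 1 := by
      rw [hre] at e4
      nlinarith
    apply Subtype.ext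
    have : (bd (1 / 4) : ℂ) = Complex.I := by
      change Complex.exp _ = _
      refine Eq.trans ?_ Complex.exp_pi_div_two_mul_I
      congr 1
      push_cast
      ring
    rw [this]
    apply Complex.ext <;> simp [hre, him]
  · apply h0
    have him : (z : ℂ).im = 0 := by linarith
    have hre : (z : ℂ).re = 1 := by
      rw [him] at e4
      nlinarith
    apply Subtype.ext
    have : (bd 0 : ℂ) = 1 := by
      change Complex.exp _ = _
      simp
    rw [this]
    apply Complex.ext <;> simp [hre, him]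

theorem continuousAt_tau (z : Disc) (h : fA z + fB z ≠ 0) : ContinuousAt tau z :=
  continuous_fA.continuousAt.div (continuous_fA.add continuous_fB).continuousAt h

theorem continuousOn_phi (n : ℕ) : ContinuousOn (phi n) twoVertices.carrierᶜ := by
  have h : IsQuotientMap (q (R := relators)) := isQuotientMap_quot_mk
  rw [h.continuousOn_isOpen_iff isOpen_compl]
  intro a ha
  apply ContinuousAt.continuousWithinAt
  have ha' : ¬ atV 1 a ∧ ¬ atV (x 0) a := (mem_compl_iff a).1 ha
  change ContinuousAt (fn n) a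
  rcases a with ⟨g, u⟩ | ⟨e, t⟩ | ⟨d, z⟩
  · exact (Topology.IsOpenEmbedding.inl.continuousAt_iff).1 continuousAt_const
  · exact (Topology.IsOpenEmbedding.inr.continuousAt_iff).1
      ((Topology.IsOpenEmbedding.inl.continuousAt_iff).1 continuousAt_const)
  · refine (Topology.IsOpenEmbedding.inr.continuousAt_iff).1
      ((Topology.IsOpenEmbedding.inr.continuousAt_iff).1
        ((Topology.IsOpenEmbedding.sigmaMk.continuousAt_iff).1 ?_))
    by_cases hd : d = (x 0, pg n)
    · subst hd
      have : (((fn n ∘ Sum.inr) ∘ Sum.inr) ∘ Sigma.mk (x 0, pg n)) =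
          fun z : Disc => ((tau z : ℝ) : AddCircle (1 : ℝ)) := by
        funext z
        simp [fn]
      rw [this]
      have hc : Continuous (fun r : ℝ => (r : AddCircle (1 : ℝ))) := AddCircle.continuous_mk' 1
      refine hc.continuousAt.comp (continuousAt_tau z (fAB_ne z ?_ ?_))
      · rintro rfl
        apply ha'.2
        left
        refine ⟨0, by simp [pg], by simp, ?_⟩
        simp only [List.take_zero]
        have : ev relators [] = 1 := by
          unfold ev
          exact map_one _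
        rw [this, mul_one]
      · rintro rfl
        apply ha'.1
        left
        refine ⟨1, by simp [pg], by simp [pg], ?_⟩
        have : ((x 0, pg n) : Gp relators × relators).2.1.take 1 = [(0, false)] := by simp [pg]
        rw [this, ev_singleton]
        simp [val, x]
    · have : (((fn n ∘ Sum.inr) ∘ Sum.inr) ∘ Sigma.mk d) = fun _ : Disc => 0 := by
        funext z
        simp [fn, hd]
      rw [this]
      exact continuousAt_const

/-! ### A compact set meets finitely many pages -/

/-- the index of the second letter of a relator -/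
def num (w : relators) : ℕ := (w.1.getD 1 (0, true)).1

theorem num_pg (n : ℕ) : num (pg n) = n + 1 := rfl

/-- a function on the closed cells, zero on the boundaries of the 2-cells -/
noncomputable def hf (c : ℕ → ℝ) : Pre relators → ℝ
  | .inl _ => 0
  | .inr (.inl _) => 0
  | .inr (.inr d) => c (num d.1.2) * (1 - ‖(d.2 : ℂ)‖ ^ 2)

theorem hf_edgePt (c : ℕ → ℝ) (h : Gp relators) (l : ℕ × Bool) (s : I) :
    hf c (edgePt h l s) = 0 := by
  unfold edgePt
  split_ifs <;> rfl

theorem hf_bd (c : ℕ → ℝ) (g : Gp relators) (w : relators) (θ : ℝ) :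
    hf c (disc g w (bd θ)) = 0 := by
  simp [hf, disc, norm_bd]

theorem hf_glue (c : ℕ → ℝ) {a b : Pre relators} (h : Glue a b) : hf c a = hf c b := by
  cases h with
  | source g x => rfl
  | target g x => rfl
  | boundary g w j s => rw [hf_bd, hf_edgePt]
  | empty g w hw θ => rw [hf_bd]; rfl

/-- the corresponding function on the complex -/
noncomputable def hh (c : ℕ → ℝ) : Cay relators → ℝ := Quot.lift (hf c) fun _ _ h => hf_glue c h

theorem continuous_hh (c : ℕ → ℝ) : Continuous (hh c) := by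
  refine continuous_quot_lift _ ?_
  rw [continuous_sum_dom]
  constructor
  · have : hf c ∘ Sum.inl = fun _ => 0 := rfl
    rw [this]
    exact continuous_const
  · rw [continuous_sum_dom]
    constructor
    · have : (hf c ∘ Sum.inr) ∘ Sum.inl = fun _ => 0 := rfl
      rw [this]
      exact continuous_const
    · rw [continuous_sigma_iff]
      intro d
      change Continuous (fun z : Disc => c (num d.2) * (1 - ‖(z : ℂ)‖ ^ 2))
      fun_prop

theorem half_ne : ((1 / 2 : ℝ) : AddCircle (1 : ℝ)) ≠ 0 := by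
  intro h
  rw [AddCircle.coe_eq_zero_iff] at h
  obtain ⟨n, hn⟩ := h
  simp only [zsmul_eq_mul, mul_one] at hn
  have h1 : ((2 * n : ℤ) : ℝ) = 1 := by push_cast; rw [hn]; norm_num
  have h2 : (2 * n : ℤ) = 1 := by exact_mod_cast h1
  omega

theorem exists_disc {n : ℕ} {p : Cay relators} (h : phi n p = ((1 / 2 : ℝ) : AddCircle (1 : ℝ))) :
    ∃ z : Disc, p = q (disc (x 0) (pg n) z) ∧ 0 < 1 - ‖(z : ℂ)‖ ^ 2 := by
  induction p using Quot.ind with
  | mk a =>
    have h' : fn n a = ((1 / 2 : ℝ) : AddCircle (1 : ℝ)) := h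
    rcases a with a | a | ⟨d, z⟩
    · exact absurd h'.symm half_ne
    · exact absurd h'.symm half_ne
    · by_cases hd : d = (x 0, pg n)
      · subst hd
        refine ⟨z, rfl, ?_⟩
        rcases (one_sub_nonneg z).lt_or_eq with h1 | h1
        · exact h1
        · exfalso
          have h2 : ‖(z : ℂ)‖ = 1 := by
            have h3 := norm_nonneg (z : ℂ)
            nlinarith
          have h4 : fn n (Sum.inr (Sum.inr ⟨(x 0, pg n), z⟩)) = ((tau z : ℝ) : AddCircle (1 : ℝ)) := by
            simp [fn]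
          rw [h4, tau_of_norm z h2] at h'
          exact half_ne h'.symm
      · have h4 : fn n (Sum.inr (Sum.inr ⟨d, z⟩)) = 0 := by simp [fn, hd]
        rw [h4] at h'
        exact absurd h'.symm half_ne

theorem eventually_ne (γ : C(I, Cay relators)) :
    ∃ N : ℕ, ∀ n ≥ N, ∀ t, phi n (γ t) ≠ ((1 / 2 : ℝ) : AddCircle (1 : ℝ)) := by
  by_contra hcon
  push Not at hcon
  have key : ∀ n : ℕ, ∃ r : ℝ, ∀ (t : I) , phi n (γ t) = ((1 / 2 : ℝ) : AddCircle (1 : ℝ)) →
      ∃ (s : I) (z : Disc), γ s = q (disc (x 0) (pg n) z) ∧ r * (1 - ‖(z : ℂ)‖ ^ 2) = n := by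
    intro n
    by_cases h : ∃ t, phi n (γ t) = ((1 / 2 : ℝ) : AddCircle (1 : ℝ))
    · obtain ⟨t, ht⟩ := h
      obtain ⟨z, hz, hz1⟩ := exists_disc ht
      exact ⟨n / (1 - ‖(z : ℂ)‖ ^ 2), fun _ _ => ⟨t, z, hz, by field_simp⟩⟩
    · exact ⟨0, fun t ht => absurd ⟨t, ht⟩ h⟩
  choose r hr using key
  let c : ℕ → ℝ := fun m => r (m - 1)
  have hcont : Continuous (fun t => hh c (γ t)) := (continuous_hh c).comp γ.continuous
  obtain ⟨M, hM⟩ := (isCompact_range hcont).bddAbove
  obtain ⟨N, hN⟩ := exists_nat_gt M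
  obtain ⟨n, hn, t, ht⟩ := hcon N
  obtain ⟨s, z, hs, hz⟩ := hr n t ht
  have h1 : hh c (γ s) = n := by
    rw [hs, ← hz]
    rfl
  have h2 := hM ⟨s, h1⟩
  have h3 : (N : ℝ) ≤ n := by exact_mod_cast hn
  linarith

/-! ### Monodromy -/

theorem lift_end (f : I → AddCircle (1 : ℝ)) (Γ : I → ℝ) (hc : Continuous Γ)
    (hΓ : ∀ t, ((Γ t : ℝ) : AddCircle (1 : ℝ)) = f t) (h0 : f 0 = 0) (h1 : f 1 = 0)
    (hne : ∀ t, f t ≠ ((1 / 2 : ℝ) : AddCircle (1 : ℝ))) : Γ 1 = Γ 0 := by
  have e0 := hΓ 0
  have e1 := hΓ 1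
  rw [h0, AddCircle.coe_eq_zero_iff] at e0
  rw [h1, AddCircle.coe_eq_zero_iff] at e1
  obtain ⟨a, ha⟩ := e0
  obtain ⟨b, hb⟩ := e1
  simp only [zsmul_eq_mul, mul_one] at ha hb
  have hcoe : ∀ m : ℤ, (((m : ℝ) + 1 / 2 : ℝ) : AddCircle (1 : ℝ)) =
      ((1 / 2 : ℝ) : AddCircle (1 : ℝ)) := by
    intro m
    rw [AddCircle.coe_add]
    have : ((m : ℝ) : AddCircle (1 : ℝ)) = 0 := by
      rw [AddCircle.coe_eq_zero_iff]
      exact ⟨m, by simp⟩
    rw [this, zero_add]
  have key : ∀ m : ℤ, ∀ t, Γ t ≠ (m : ℝ) + 1 / 2 := by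
    intro m t ht
    apply hne t
    rw [← hΓ t, ht, hcoe]
  rcases lt_trichotomy a b with h | h | h
  · exfalso
    have h2 : (a : ℝ) + 1 ≤ b := by exact_mod_cast h
    have h3 : (a : ℝ) + 1 / 2 ∈ Set.range Γ := by
      refine mem_range_of_exists_le_of_exists_ge hc ⟨0, ?_⟩ ⟨1, ?_⟩ <;> linarith
    obtain ⟨t, ht⟩ := h3
    exact key a t ht
  · rw [← ha, ← hb, h]
  · exfalso
    have h2 : (b : ℝ) + 1 ≤ a := by exact_mod_cast h
    have h3 : (b : ℝ) + 1 / 2 ∈ Set.range Γ := by
      refine mem_range_of_exists_le_of_exists_ge hc ⟨1, ?_⟩ ⟨0, ?_⟩ <;> linarith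
    obtain ⟨t, ht⟩ := h3
    exact key b t ht

/-! ### Paths -/

/-- the midpoint of the interval -/
noncomputable def hlf : I := ⟨1 / 2, by norm_num, by norm_num⟩

theorem symm_hlf : σ hlf = hlf := by
  apply Subtype.ext
  simp [hlf]
  norm_num

theorem hlf_ne_zero : hlf ≠ 0 := by
  intro h
  have := congrArg Subtype.val h
  simp [hlf] at this

theorem hlf_ne_one : hlf ≠ 1 := by
  intro h
  have := congrArg Subtype.val h
  simp [hlf] at this

theorem continuous_q : Continuous (q (R := relators)) := continuous_quot_mk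

/-- the complement of the two vertices, where the page function vanishes -/
def SS (n : ℕ) : Set (Cay relators) := {p | p ∈ twoVertices.carrierᶜ ∧ phi n p = 0}

theorem good_ne {g : Gp relators} (h : deg g ≠ 1) : g ≠ 1 ∧ g ≠ x 0 := by
  constructor
  · rintro rfl
    exact h (map_one _)
  · rintro rfl
    exact h deg_x_zero

theorem edge_mem_compl {g : Gp relators} {m : ℕ} (h1 : deg g ≠ 1) (h2 : deg (g * x m) ≠ 1) (t : I) :
    q (edge g m t) ∈ twoVertices.carrierᶜ := by
  rw [mem_compl_iff]
  have a1 := good_ne h1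
  have a2 := good_ne h2
  constructor
  · rintro (⟨-, h⟩ | ⟨-, h⟩)
    · exact a1.1 h
    · exact a2.1 h
  · rintro (⟨-, h⟩ | ⟨-, h⟩)
    · exact a1.2 h
    · exact a2.2 h

theorem pathConn : PathConnectedSpace I :=
  isPathConnected_iff_pathConnectedSpace.1
    ((convex_Icc (0 : ℝ) 1).isPathConnected ⟨0, by norm_num, by norm_num⟩)

theorem joined_edge (n : ℕ) {g : Gp relators} {m : ℕ} (h1 : deg g ≠ 1) (h2 : deg (g * x m) ≠ 1)
    (a b : I) : JoinedIn (SS n) (q (edge g m a)) (q (edge g m b)) := by
  have hc : Continuous (fun t : I => q (edge g m t)) :=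
    continuous_q.comp (continuous_inr.comp (continuous_inl.comp continuous_sigmaMk))
  have := pathConn
  have h3 := (isPathConnected_univ (X := I)).image hc
  refine (h3.joinedIn _ ⟨a, trivial, rfl⟩ _ ⟨b, trivial, rfl⟩).mono ?_
  rintro _ ⟨t, -, rfl⟩
  exact ⟨edge_mem_compl h1 h2 t, rfl⟩

/-- a diameter of the disc -/
noncomputable def zz (t : I) : Disc :=
  ⟨(1 - 2 * (t : ℝ) : ℝ) * (bd (1 / 8) : ℂ), by
    have h0 := t.2.1
    have h1 := t.2.2
    rw [mem_closedBall_zero_iff, norm_mul, norm_bd, mul_one, Complex.norm_real, Real.norm_eq_abs,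
      abs_le]
    constructor <;> linarith⟩

theorem continuous_zz : Continuous zz := by
  unfold zz
  fun_prop

theorem bd_pow_four (j : ℕ) : (bd ((j : ℝ) / 4) : ℂ) ^ 4 = 1 := by
  change Complex.exp _ ^ 4 = 1
  rw [← Complex.exp_nat_mul]
  have : ((4 : ℕ) : ℂ) * (2 * Real.pi * ((j : ℝ) / 4 : ℝ) * Complex.I) =
      j * (2 * Real.pi * Complex.I) := by
    push_cast
    ring
  rw [this]
  exact Complex.exp_nat_mul_two_pi_mul_I j

theorem zz_pow_four (t : I) : (zz t : ℂ) ^ 4 ≠ 1 := by
  have h : (zz t : ℂ) ^ 4 = (-((1 - 2 * (t : ℝ)) ^ 4) : ℝ) := by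
    change (((1 - 2 * (t : ℝ) : ℝ) : ℂ) * Complex.exp _) ^ 4 = _
    rw [mul_pow, ← Complex.exp_nat_mul]
    have : ((4 : ℕ) : ℂ) * (2 * Real.pi * ((1 / 8 : ℝ) : ℂ) * Complex.I) =
        Real.pi * Complex.I := by
      push_cast
      ring
    rw [this, Complex.exp_pi_mul_I]
    push_cast
    ring
  rw [h]
  intro h1
  have h2 : (-((1 - 2 * (t : ℝ)) ^ 4) : ℝ) = 1 := by exact_mod_cast h1
  have h3 : 0 ≤ (1 - 2 * (t : ℝ)) ^ 4 := by positivity
  linarith

theorem zz_ne (t : I) (j : ℕ) : zz t ≠ bd ((j : ℝ) / 4) := by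
  intro h
  apply zz_pow_four t
  rw [h]
  exact bd_pow_four j

theorem not_atV_zz (n : ℕ) (v : Gp relators) (t : I) : ¬ atV v (disc (x 0) (pg n) (zz t)) := by
  rintro (⟨j, hj, h1, -⟩ | ⟨h, -⟩)
  · apply zz_ne t j
    refine Eq.trans h1 ?_
    simp [pg]
  · simp [pg] at h

theorem page_mem_compl (n : ℕ) (t : I) :
    q (disc (x 0) (pg n) (zz t)) ∈ twoVertices.carrierᶜ := by
  rw [mem_compl_iff]
  exact ⟨not_atV_zz n _ t, not_atV_zz n _ t⟩

/-- the path through a page -/
noncomputable def pageFun (n : ℕ) (t : I) : Cay relators := q (disc (x 0) (pg n) (zz t))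

theorem continuous_pageFun (n : ℕ) : Continuous (pageFun n) :=
  continuous_q.comp (continuous_inr.comp (continuous_inr.comp (continuous_sigmaMk.comp
    continuous_zz)))

theorem ev_nil : ev relators [] = 1 := by
  unfold ev
  exact map_one _

/-- the base point -/
noncomputable def p0 : Cay relators := q (edge 1 0 hlf)

theorem pageFun_zero (n : ℕ) : pageFun n 0 = p0 := by
  have h1 : zz 0 = bd ((((0 : ℕ) : ℝ) + (hlf : ℝ)) / ((pg n).1.length)) := by
    apply Subtype.ext
    change (((1 - 2 * ((0 : I) : ℝ) : ℝ) : ℂ) * (bd (1 / 8) : ℂ)) = _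
    have : (((0 : ℕ) : ℝ) + (hlf : ℝ)) / ((pg n).1.length) = 1 / 8 := by
      simp [pg, hlf]
      norm_num
    rw [this]
    simp
  have h2 : q (disc (x 0) (pg n) (bd ((((0 : ℕ) : ℝ) + (hlf : ℝ)) / ((pg n).1.length)))) =
      q (edgePt (x 0 * ev relators ((pg n).1.take 0)) ((pg n).1.get ⟨0, by simp [pg]⟩) hlf) :=
    Quot.sound (Glue.boundary (x 0) (pg n) ⟨0, by simp [pg]⟩ hlf)
  have h3 : edgePt (x 0 * ev relators ((pg n).1.take 0)) ((pg n).1.get ⟨0, by simp [pg]⟩) hlf =
      edge 1 0 hlf := by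
    have : (pg n).1.get ⟨0, by simp [pg]⟩ = (0, false) := by simp [pg]
    rw [this, List.take_zero, ev_nil, mul_one]
    simp only [edgePt, Bool.false_eq_true, if_false, symm_hlf]
    congr 1
    exact mul_inv_cancel _
  unfold pageFun p0
  rw [h1, h2, h3]

theorem pageFun_one (n : ℕ) : pageFun n 1 = q (edge (x (n + 1)) 0 hlf) := by
  have h1 : zz 1 = bd ((((2 : ℕ) : ℝ) + (hlf : ℝ)) / ((pg n).1.length)) := by
    apply Subtype.ext
    change (((1 - 2 * ((1 : I) : ℝ) : ℝ) : ℂ) * Complex.exp _) = Complex.exp _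
    have : (((2 : ℕ) : ℝ) + (hlf : ℝ)) / ((pg n).1.length) = 5 / 8 := by
      simp [pg, hlf]
      norm_num
    rw [this]
    have e1 : (2 * Real.pi * ((5 / 8 : ℝ) : ℂ) * Complex.I) =
        2 * Real.pi * ((1 / 8 : ℝ) : ℂ) * Complex.I + Real.pi * Complex.I := by
      push_cast
      ring
    rw [e1, Complex.exp_add, Complex.exp_pi_mul_I]
    simp only [Set.Icc.coe_one]
    push_cast
    ring
  have h2 : q (disc (x 0) (pg n) (bd ((((2 : ℕ) : ℝ) + (hlf : ℝ)) / ((pg n).1.length)))) =
      q (edgePt (x 0 * ev relators ((pg n).1.take 2)) ((pg n).1.get ⟨2, by simp [pg]⟩) hlf) :=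
    Quot.sound (Glue.boundary (x 0) (pg n) ⟨2, by simp [pg]⟩ hlf)
  have h3 : edgePt (x 0 * ev relators ((pg n).1.take 2)) ((pg n).1.get ⟨2, by simp [pg]⟩) hlf =
      edge (x (n + 1)) 0 hlf := by
    have : (pg n).1.get ⟨2, by simp [pg]⟩ = (0, true) := by simp [pg]
    rw [this]
    have e2 : (pg n).1.take 2 = [(0, false)] ++ [(n + 1, true)] := by simp [pg]
    rw [e2, ev_append, ev_singleton, ev_singleton]
    simp only [edgePt, val, Bool.false_eq_true, if_false, if_true]
    congr 1
    exact mul_inv_cancel_left _ _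
  unfold pageFun
  rw [h1, h2, h3]

theorem p0_mem : p0 ∈ twoVertices.carrierᶜ := by
  rw [← pageFun_zero 0]
  exact page_mem_compl 0 0

theorem deg_mul_one_ne (n : ℕ) : deg (x (n + 1) * x 0) ≠ 1 := by
  rw [map_mul, deg_x_succ, deg_x_zero, mul_one]
  exact ofAdd_one_ne

theorem deg_succ_ne (n : ℕ) : deg (x (n + 1)) ≠ 1 := by
  rw [deg_x_succ]
  exact ofAdd_one_ne

theorem deg_mul_ne (m n : ℕ) : deg (x (m + 1) * x (n + 1)) ≠ 1 := by
  rw [map_mul, deg_x_succ, deg_x_succ]
  intro h
  have := congrArg Multiplicative.toAdd h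
  simp at this

/-- from the far side of the page `n` back to the base point, outside of the page `n` -/
theorem joined_back (n : ℕ) (hn : 1 ≤ n) : JoinedIn (SS n) (q (edge (x (n + 1)) 0 hlf)) p0 := by
  have s1 : JoinedIn (SS n) (q (edge (x (n + 1)) 0 hlf)) (q (edge (x (n + 1)) 0 0)) :=
    joined_edge n (deg_succ_ne n) (deg_mul_one_ne n) _ _
  have e1 : q (edge (x (n + 1)) 0 0) = q (edge (x (n + 1)) 1 0) :=
    (Quot.sound (Glue.source _ _)).trans (Quot.sound (Glue.source _ _)).symm
  have s2 : JoinedIn (SS n) (q (edge (x (n + 1)) 1 0)) (q (edge (x (n + 1)) 1 1)) :=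
    joined_edge n (deg_succ_ne n) (deg_mul_ne n 0) _ _
  have e2 : q (edge (x (n + 1)) 1 1) = q (edge (x 1) (n + 2) 1) := by
    refine (Quot.sound (Glue.target _ _)).trans (Eq.trans ?_ (Quot.sound (Glue.target _ _)).symm)
    have : x (n + 1) * gen relators 1 = x 1 * gen relators (n + 2) :=
      x_rel (k := 1) (n := n + 1) (by omega)
    rw [this]
  have s3 : JoinedIn (SS n) (q (edge (x 1) (n + 2) 1)) (q (edge (x 1) (n + 2) 0)) :=
    joined_edge n (deg_succ_ne 0) (deg_mul_ne 0 (n + 1)) _ _
  have e3 : q (edge (x 1) (n + 2) 0) = q (edge (x 1) 0 0) :=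
    (Quot.sound (Glue.source _ _)).trans (Quot.sound (Glue.source _ _)).symm
  have s4 : JoinedIn (SS n) (q (edge (x 1) 0 0)) (q (edge (x 1) 0 hlf)) :=
    joined_edge n (deg_succ_ne 0) (deg_mul_one_ne 0) _ _
  have s5 : JoinedIn (SS n) (q (edge (x 1) 0 hlf)) p0 := by
    have := pathConn
    have h3 := (isPathConnected_univ (X := I)).image (continuous_pageFun 0)
    have h4 := (h3.joinedIn _ ⟨1, trivial, rfl⟩ _ ⟨0, trivial, rfl⟩)
    rw [pageFun_zero, pageFun_one] at h4
    refine h4.mono ?_
    rintro _ ⟨t, -, rfl⟩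
    refine ⟨page_mem_compl 0 t, ?_⟩
    have hne : ((x 0, pg 0) : Gp relators × relators) ≠ (x 0, pg n) := by
      intro h
      have := pg_inj (congrArg Prod.snd h)
      omega
    change fn n (disc (x 0) (pg 0) (zz t)) = 0
    simp [fn, disc, hne]
  rw [e1] at s1
  rw [e2] at s2
  rw [e3] at s3
  exact (((s1.trans s2).trans s3).trans s4).trans s5

/-! ### Conclusion -/

/-- the component of the base point -/
abbrev KK : Set (Cay relators) := connectedComponentIn twoVertices.carrierᶜ p0

/-- the base point -/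
noncomputable def k0 : KK := ⟨p0, mem_connectedComponentIn p0_mem⟩

theorem k0_val : (k0 : Cay relators) = p0 := rfl

/-- the page function on the component -/
noncomputable def ff (n : ℕ) : C(KK, AddCircle (1 : ℝ)) where
  toFun k := phi n k
  continuous_toFun := ((continuousOn_phi n).mono (connectedComponentIn_subset _ _)).domRestrict

theorem ff_k0 (n : ℕ) : ff n k0 = 0 := rfl

theorem mem_KK {a b : Cay relators} (γ : Path a b) (h : ∀ t, γ t ∈ twoVertices.carrierᶜ)
    (h0 : ∃ t, γ t = p0) (t : I) : γ t ∈ KK :=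
  (isPreconnected_range γ.continuous).subset_connectedComponentIn h0
    (by rintro _ ⟨t, rfl⟩; exact h t) ⟨t, rfl⟩

/-- the covering of the circle by the line -/
theorem cov : IsCoveringMap ((↑) : ℝ → AddCircle (1 : ℝ)) := AddCircle.isCoveringMap_coe 1

/-- the monodromy -/
noncomputable def Psi (n : ℕ) : FundamentalGroup KK k0 →*
    Equiv.Perm (((↑) : ℝ → AddCircle (1 : ℝ)) ⁻¹' {ff n k0}) :=
  (cov.monodromyPerm (ff n k0)).comp (FundamentalGroup.map (ff n) k0)

theorem Psi_mk (n : ℕ) (γ : Path k0 k0) (e : ((↑) : ℝ → AddCircle (1 : ℝ)) ⁻¹' {ff n k0}) :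
    Psi n (Path.Homotopic.Quotient.mk γ) e =
      cov.monodromy (Path.Homotopic.Quotient.mk (γ.map (ff n).continuous)) e := rfl

theorem eventually_one (g : FundamentalGroup KK k0) : ∃ N : ℕ, ∀ n ≥ N, Psi n g = 1 := by
  induction g using Quotient.inductionOn with
  | h γ =>
    obtain ⟨N, hN⟩ := eventually_ne ⟨fun t => (γ t : Cay relators),
      continuous_subtype_val.comp γ.continuous⟩
    refine ⟨N, fun n hn => ?_⟩
    ext e
    have h1 : Psi n (Path.Homotopic.Quotient.mk γ) e =
      cov.monodromy (Path.Homotopic.Quotient.mk (γ.map (ff n).continuous)) e := rfl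
    change ((Psi n (Path.Homotopic.Quotient.mk γ) e : _) : ℝ) = e
    rw [h1]
    have hsrc : (γ.map (ff n).continuous : C(I, AddCircle (1 : ℝ))) 0 = ((e : ℝ) : AddCircle (1 : ℝ)) :=
      (γ.map (ff n).continuous).source.trans e.2.symm
    have h2 : ((cov.monodromy (Path.Homotopic.Quotient.mk (γ.map (ff n).continuous)) e : _) : ℝ) =
      cov.liftPath (γ.map (ff n).continuous) e hsrc 1 := rfl
    rw [h2]
    have hl := cov.liftPath_lifts (γ.map (ff n).continuous) e hsrc
    have h3 : cov.liftPath (γ.map (ff n).continuous) e hsrc 1 =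
        cov.liftPath (γ.map (ff n).continuous) e hsrc 0 := by
      refine lift_end (fun t => ff n (γ t)) _ (ContinuousMap.continuous _) (fun t => ?_) ?_ ?_ ?_
      · exact congrFun hl t
      · simp only [γ.source]; exact ff_k0 n
      · simp only [γ.target]; exact ff_k0 n
      · intro t
        exact hN n hn t
    rw [h3, cov.liftPath_zero]

theorem exists_loop (n : ℕ) (hn : 1 ≤ n) : ∃ g : FundamentalGroup KK k0, Psi n g ≠ 1 := by
  -- the path through the page
  let γ1 : Path p0 (q (edge (x (n + 1)) 0 hlf)) :=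
    ⟨⟨pageFun n, continuous_pageFun n⟩, pageFun_zero n, pageFun_one n⟩
  have m1 : ∀ t, γ1 t ∈ KK := mem_KK γ1 (fun t => page_mem_compl n t) ⟨0, γ1.source⟩
  obtain ⟨γ2, h2⟩ := joined_back n hn
  have m2 : ∀ t, γ2 t ∈ KK := mem_KK γ2 (fun t => (h2 t).1) ⟨1, γ2.target⟩
  let k1 : KK := ⟨q (edge (x (n + 1)) 0 hlf), by have := m1 1; rwa [γ1.target] at this⟩
  let δ1 : Path k0 k1 := ⟨⟨fun t => ⟨γ1 t, m1 t⟩, by fun_prop⟩, Subtype.ext γ1.source,
    Subtype.ext γ1.target⟩
  let δ2 : Path k1 k0 := ⟨⟨fun t => ⟨γ2 t, m2 t⟩, by fun_prop⟩, Subtype.ext γ2.source,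
    Subtype.ext γ2.target⟩
  refine ⟨Path.Homotopic.Quotient.mk (δ1.trans δ2), fun hone => ?_⟩
  have e0 : ((0 : ℝ) : AddCircle (1 : ℝ)) = ff n k0 := by
    rw [ff_k0]
    rfl
  have e1 : ((1 : ℝ) : AddCircle (1 : ℝ)) = ff n k1 := by
    have : ff n k1 = 0 := rfl
    rw [this]
    exact AddCircle.coe_period 1
  have e1' : ((1 : ℝ) : AddCircle (1 : ℝ)) = ff n k0 := by
    rw [ff_k0]
    exact AddCircle.coe_period 1
  have key : cov.monodromy (Path.Homotopic.Quotient.mk ((δ1.trans δ2).map (ff n).continuous))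
      ⟨0, e0⟩ = ⟨0, e0⟩ := by
    have := DFunLike.congr_fun hone ⟨0, e0⟩
    exact this
  have h3 : Path.Homotopic.Quotient.mk ((δ1.trans δ2).map (ff n).continuous) =
      (Path.Homotopic.Quotient.mk (δ1.map (ff n).continuous)).trans
        (Path.Homotopic.Quotient.mk (δ2.map (ff n).continuous)) := by
    rw [Path.map_trans]
    rfl
  rw [h3, cov.monodromy_trans_apply] at key
  -- the lift of the first path
  have hτ : Continuous (fun t : I => tau (zz t)) := by
    rw [continuous_iff_continuousAt]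
    intro t
    refine ContinuousAt.comp (continuousAt_tau _ (fAB_ne _ ?_ ?_)) continuous_zz.continuousAt
    · have := zz_ne t 0
      simpa using this
    · have := zz_ne t 1
      simpa using this
  have hre : (bd (1 / 8) : ℂ).re = √2 / 2 := by
    change (Complex.exp _).re = _
    have : (2 * Real.pi * ((1 / 8 : ℝ) : ℂ) * Complex.I) = ((Real.pi / 4 : ℝ) : ℂ) * Complex.I := by
      push_cast
      ring
    rw [this, Complex.exp_ofReal_mul_I_re, Real.cos_pi_div_four]
  have him : (bd (1 / 8) : ℂ).im = √2 / 2 := by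
    change (Complex.exp _).im = _
    have : (2 * Real.pi * ((1 / 8 : ℝ) : ℂ) * Complex.I) = ((Real.pi / 4 : ℝ) : ℂ) * Complex.I := by
      push_cast
      ring
    rw [this, Complex.exp_ofReal_mul_I_im, Real.sin_pi_div_four]
  have hsq : (0 : ℝ) < √2 / 2 := by positivity
  have hz0 : (zz 0 : ℂ) = bd (1 / 8) := by
    change (((1 - 2 * ((0 : I) : ℝ) : ℝ) : ℂ) * (bd (1 / 8) : ℂ)) = _
    simp
  have hz1 : (zz 1 : ℂ) = -(bd (1 / 8) : ℂ) := by
    change (((1 - 2 * ((1 : I) : ℝ) : ℝ) : ℂ) * (bd (1 / 8) : ℂ)) = _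
    simp only [Set.Icc.coe_one]
    push_cast
    ring
  have t0 : tau (zz 0) = 0 := by
    have : fA (zz 0) = 0 := by
      unfold fA
      rw [hz0, norm_bd, hre, him, max_eq_left (by linarith)]
      norm_num
    simp [tau, this]
  have t1 : tau (zz 1) = 1 := by
    have hB : fB (zz 1) = 0 := by
      unfold fB
      rw [hz1, norm_neg, norm_bd, Complex.neg_re, Complex.neg_im, hre, him, min_self,
        max_eq_left (by linarith)]
      norm_num
    have hA : fA (zz 1) ≠ 0 := by
      unfold fA
      rw [hz1, norm_neg, norm_bd, Complex.neg_re, Complex.neg_im, hre, him, neg_neg,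
        max_eq_right (by linarith)]
      have : (1 : ℝ) - 1 ^ 2 + √2 / 2 + √2 / 2 = √2 := by ring
      rw [this]
      positivity
    rw [tau, hB, add_zero, div_self hA]
  have hphi : ∀ t, phi n (pageFun n t) = ((tau (zz t) : ℝ) : AddCircle (1 : ℝ)) := by
    intro t
    change fn n (disc (x 0) (pg n) (zz t)) = _
    simp [fn, disc]
  have s1 : (δ1.map (ff n).continuous : C(I, AddCircle (1 : ℝ))) 0 = ((0 : ℝ) : AddCircle (1 : ℝ)) :=
    (δ1.map (ff n).continuous).source.trans e0.symm
  have l1 : cov.monodromy (Path.Homotopic.Quotient.mk (δ1.map (ff n).continuous)) ⟨0, e0⟩ =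
      ⟨1, e1⟩ := by
    apply Subtype.ext
    change cov.liftPath (δ1.map (ff n).continuous) 0 s1 1 = 1
    have : (⟨fun t : I => tau (zz t), hτ⟩ : C(I, ℝ)) = cov.liftPath (δ1.map (ff n).continuous) 0 s1 := by
      rw [cov.eq_liftPath_iff']
      refine ⟨?_, t0⟩
      funext t
      exact (hphi t).symm
    rw [← this]
    exact t1
  rw [l1] at key
  have s2 : (δ2.map (ff n).continuous : C(I, AddCircle (1 : ℝ))) 0 = ((1 : ℝ) : AddCircle (1 : ℝ)) :=
    (δ2.map (ff n).continuous).source.trans e1.symm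
  have l2 : cov.monodromy (Path.Homotopic.Quotient.mk (δ2.map (ff n).continuous)) ⟨1, e1⟩ =
      ⟨1, e1'⟩ := by
    apply Subtype.ext
    change cov.liftPath (δ2.map (ff n).continuous) 1 s2 1 = 1
    have : (ContinuousMap.const I (1 : ℝ)) = cov.liftPath (δ2.map (ff n).continuous) 1 s2 := by
      rw [cov.eq_liftPath_iff']
      refine ⟨?_, rfl⟩
      funext t
      change ((1 : ℝ) : AddCircle (1 : ℝ)) = phi n (γ2 t)
      rw [(h2 t).2]
      exact AddCircle.coe_period 1
    rw [← this]
    rfl
  rw [l2] at key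
  have := congrArg Subtype.val key
  norm_num at this

theorem not_fg : ¬ Group.FG (FundamentalGroup KK k0) := by
  intro hfg
  obtain ⟨S, hS⟩ := hfg.out
  choose N hN using eventually_one
  let M := S.sup N + 1
  obtain ⟨g, hg⟩ := exists_loop M (by omega)
  apply hg
  have h1 : (⊤ : Subgroup (FundamentalGroup KK k0)) ≤ (Psi M).ker := by
    rw [← hS, Subgroup.closure_le]
    intro s hs
    have : N s ≤ S.sup N := Finset.le_sup (Finset.mem_coe.1 hs)
    exact hN s M (by omega)
  exact h1 (Subgroup.mem_top g)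

end Infinite

/-- **The trivial subgroup is not tame in Thompson's group `F` with respect to the infinite
presentation `⟨x_0, x_1, … ∣ x_k⁻¹ x_n x_k = x_{n+1} (k < n)⟩`.** -/
theorem result : ¬ TrivialSubgroupTame relators := fun h =>
  not_fg (h twoVertices twoVertices_isSubcomplex twoVertices_isFinite p0 p0_mem)

end Pool.Agent.Results.MP_d8e3a9_al.InfinitePresentation
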